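import Pool.Agent.Run7.h568.MC.Iface

/-!
# Piece SMOOTH of project MC (helper568, MP_a29257_gt)
-/

namespace Run7.h713.MC.SMOOTH

open Run7.h568.MC Run7.h568.MC.Pattern

variable {V : Type*} [Fintype V] {P : Pattern V}

/-- bounds for positive Möbius maps -/
theorem mob_bound {A B C D w : ℝ} (hA : 0 < A) (hB : 0 < B) (hC : 0 < C) (hD : 0 < D)
    (hw : 0 < w) : (A * w + B) / (C * w + D) ≤ A / C + B / D ∧
      ((A * w + B) / (C * w + D))⁻¹ ≤ C / A + D / B := by
  have key : ∀ {A B C D : ℝ}, 0 < A → 0 < B → 0 < C → 0 < D →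
      (A * w + B) / (C * w + D) ≤ A / C + B / D := by
    intro A B C D hA hB hC hD
    rw [div_le_iff₀ (by positivity)]
    have h1 : (A / C + B / D) * (C * w + D) = A * w + B + (A / C * D + B / D * (C * w)) := by
      field_simp
      ring
    rw [h1]
    have : 0 < A / C * D + B / D * (C * w) := by positivity
    linarith
  refine ⟨key hA hB hC hD, ?_⟩
  rw [inv_div]
  exact key hC hD hA hB

theorem leaf_bound (m : HypMetric P) : ∃ K : ℝ, 1 ≤ K ∧ ∀ (τ a : V → ℝ), IsLeafA m τ a →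
    ∀ p, a p ≤ K ∧ (a p)⁻¹ ≤ K := by
  have hs := fun p => m.beta_left p
  let f : V → ℝ := fun p =>
    ((m.G p) 0 1 / (-((m.G p) 1 1)) + (m.G p) 0 0 / (-((m.G p) 1 0))) +
    ((-((m.G p) 1 1)) / (m.G p) 0 1 + (-((m.G p) 1 0)) / (m.G p) 0 0)
  have hpos1 : ∀ p, 0 < (m.G p) 0 1 / (-((m.G p) 1 1)) + (m.G p) 0 0 / (-((m.G p) 1 0)) := by
    intro p
    obtain ⟨h1, h2, h3, h4⟩ := hs p
    have h3' := neg_pos.2 h3
    have h4' := neg_pos.2 h4
    unfold HypMetric.G
    positivity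
  have hpos2 : ∀ p, 0 < (-((m.G p) 1 1)) / (m.G p) 0 1 + (-((m.G p) 1 0)) / (m.G p) 0 0 := by
    intro p
    obtain ⟨h1, h2, h3, h4⟩ := hs p
    have h3' := neg_pos.2 h3
    have h4' := neg_pos.2 h4
    unfold HypMetric.G
    positivity
  have hf : ∀ p, 0 ≤ f p := fun p => (add_pos (hpos1 p) (hpos2 p)).le
  refine ⟨1 + ∑ p, f p, ?_, ?_⟩
  · have : 0 ≤ ∑ p, f p := Finset.sum_nonneg fun p _ => hf p
    linarith
  · intro τ a ha p
    have hle : f p ≤ ∑ p, f p := Finset.single_le_sum (fun q _ => hf q) (Finset.mem_univ p)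
    obtain ⟨h1, h2, h3, h4⟩ := hs p
    have h3' := neg_pos.2 h3
    have h4' := neg_pos.2 h4
    have hw : 0 < Real.exp (-(τ (P.A p))) * a (P.A p) := mul_pos (Real.exp_pos _) (ha.1 _)
    have h5 := mob_bound h2 h1 h4' h3' hw
    have h6 : a p = (cross P m.x m.θ p 0 1 * (Real.exp (-(τ (P.A p))) * a (P.A p)) +
      cross P m.x m.θ p 0 0) / (-(cross P m.x m.θ p 1 1) *
        (Real.exp (-(τ (P.A p))) * a (P.A p)) + -(cross P m.x m.θ p 1 0)) := by
      have := ha.2 p
      unfold Mob HypMetric.G at this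
      rw [← sub_eq_add_neg]
      exact this
    rw [← h6] at h5
    have e1 := hpos1 p
    have e2 := hpos2 p
    have e3 : f p = ((m.G p) 0 1 / (-((m.G p) 1 1)) + (m.G p) 0 0 / (-((m.G p) 1 0))) +
      ((-((m.G p) 1 1)) / (m.G p) 0 1 + (-((m.G p) 1 0)) / (m.G p) 0 0) := rfl
    unfold HypMetric.G at e1 e2 e3
    constructor
    · linarith [h5.1]
    · linarith [h5.2]

theorem third (m : HypMetric P) (τ a c : V → ℝ) (m' : HypMetric P) (h : LeafRel m τ a m')
    (hc : c ∈ Inv P) : ∑ p, c p * m'.y p = ∑ p, c p * m.y p := by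
  have h1 : ∑ p, c p * disp (P := P) τ a (P.B p) = ∑ p, c p * disp (P := P) τ a p := by
    have h2 : ∑ p, c p * disp (P := P) τ a (P.B p) =
        ∑ p, c (P.B p) * disp (P := P) τ a (P.B p) :=
      Finset.sum_congr rfl fun p _ => by rw [hc.2 p]
    rw [h2]
    exact (Function.Bijective.sum_comp P.B_bij (fun p => c p * disp (P := P) τ a p))
  have h3 : ∀ p, c p * m'.y p = c p * m.y p - c p * disp (P := P) τ a p +
      c p * disp (P := P) τ a (P.B p) := by
    intro p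
    rw [h.y_eq p]; ring
  rw [Finset.sum_congr rfl fun p _ => h3 p, Finset.sum_add_distrib, Finset.sum_sub_distrib, h1]
  ring

section smooth

variable (hA : S_GA P) (hB : S_GB P) (m : HypMetric P) (a : (V → ℝ) → V → ℝ)
  (F : Inv P → HypMetric P) (ha : ∀ p, ContDiff ℝ 2 fun τ => a τ p)
  (hF : ∀ τ : Inv P, LeafRel m τ (a τ) (F τ))

theorem cd_tau (p : V) : ContDiff ℝ 2 (fun τ : Inv P => (τ : V → ℝ) p) := by
  have h1 : ContDiff ℝ 2 (fun τ : Inv P => (τ : V → ℝ)) :=
    (Inv P).subtypeL.contDiff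
  exact (contDiff_apply ℝ ℝ p).comp h1

include ha in
theorem cd_a (p : V) : ContDiff ℝ 2 (fun τ : Inv P => a (τ : V → ℝ) p) := by
  have h1 : ContDiff ℝ 2 (fun τ : Inv P => (τ : V → ℝ)) :=
    (Inv P).subtypeL.contDiff
  exact (ha p).comp h1

include ha hF in
theorem cd_TT (p : V) : ContDiff ℝ 2 (fun τ : Inv P => (F τ).TT p) := by
  have h1 : (fun τ : Inv P => (F τ).TT p) = fun τ : Inv P =>
      Real.exp ((τ : V → ℝ) p) / (a τ p * a τ (P.rho p)) := funext fun τ => (hF τ).T_eq p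
  rw [h1]
  exact (Real.contDiff_exp.comp (cd_tau p)).div ((cd_a a ha p).mul (cd_a a ha (P.rho p)))
    fun τ => (mul_pos ((hF τ).isA.1 _) ((hF τ).isA.1 _)).ne'

include ha hF in
theorem cd_EE (p : V) : ContDiff ℝ 2 (fun τ : Inv P => (F τ).EE p) := by
  have h1 : (fun τ : Inv P => (F τ).EE p) = fun τ : Inv P =>
      Real.exp ((τ : V → ℝ) p - m.y (P.rho p)) / (a τ p * a τ (P.kap p)) :=
    funext fun τ => (hF τ).E_eq p
  rw [h1]
  exact (Real.contDiff_exp.comp ((cd_tau p).sub contDiff_const)).div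
    ((cd_a a ha p).mul (cd_a a ha (P.kap p)))
    fun τ => (mul_pos ((hF τ).isA.1 _) ((hF τ).isA.1 _)).ne'

omit [Fintype V] in
theorem TE_pos (hA : ∀ m : HypMetric P, GF m) (m' : HypMetric P) (p : V) :
    0 < m'.TT p - m'.EE p :=
  sub_pos.2 ((hA m').E_lt p)

omit [Fintype V] in
theorem TT_pos (hA : ∀ m : HypMetric P, GF m) (m' : HypMetric P) (p : V) : 0 < m'.TT p :=
  pow_pos ((hA m').t_pos p) 2

omit [Fintype V] in
theorem RR_pos (hA : ∀ m : HypMetric P, GF m) (m' : HypMetric P) (p : V) : 0 < m'.RR p := by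
  have h1 := TE_pos hA m' p
  have h2 := TT_pos hA m' p
  have h3 := (hA m').E_pos p
  unfold HypMetric.RR
  positivity

omit [Fintype V] in
theorem SS_pos (hA : ∀ m : HypMetric P, GF m) (m' : HypMetric P) (p : V) : 0 < m'.SS p := by
  have h1 := TE_pos hA m' p
  have h3 := (hA m').E_pos p
  unfold HypMetric.SS
  positivity

omit [Fintype V] in
theorem DD_pos (hA : ∀ m : HypMetric P, GF m) (m' : HypMetric P) (p : V) : 0 < m'.DD p :=
  add_pos (RR_pos hA m' p) (SS_pos hA m' p)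

omit [Fintype V] in
theorem mu_pos (hA : ∀ m : HypMetric P, GF m) (m' : HypMetric P) (p : V) : 0 < m'.mu p := by
  by_cases h : P.Quad p
  · rw [(hA m').mu_quad p h]; norm_num
  · linarith [(hA m').mu_gt p h]

include hA ha hF in
theorem cd_SS (p : V) : ContDiff ℝ 2 (fun τ : Inv P => (F τ).SS p) :=
  (contDiff_const.add (cd_EE m a F ha hF p)).div
    ((cd_TT m a F ha hF p).sub (cd_EE m a F ha hF p)) fun τ => (TE_pos hA (F τ) p).ne'

include hA ha hF in
theorem cd_RR (p : V) : ContDiff ℝ 2 (fun τ : Inv P => (F τ).RR p) :=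
  ((cd_TT m a F ha hF p).mul (contDiff_const.add (cd_EE m a F ha hF p))).div
    ((cd_TT m a F ha hF p).sub (cd_EE m a F ha hF p)) fun τ => (TE_pos hA (F τ) p).ne'

include hA ha hF in
theorem cd_DD (p : V) : ContDiff ℝ 2 (fun τ : Inv P => (F τ).DD p) :=
  (cd_RR hA m a F ha hF p).add (cd_SS hA m a F ha hF p)

include hA ha hF in
theorem cd_Lam (p : V) : ContDiff ℝ 2 (fun τ : Inv P => (F τ).Lam p) :=
  ((cd_RR hA m a F ha hF p).sub contDiff_const).mul
    ((cd_SS hA m a F ha hF (P.kap p)).add contDiff_const)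

include hA ha hF in
theorem cd_The (p : V) : ContDiff ℝ 2 (fun τ : Inv P => (F τ).The p) :=
  (cd_RR hA m a F ha hF p).mul (cd_SS hA m a F ha hF (P.rho p))

/-- the factor `el` -/
noncomputable def el (τ : V → ℝ) (p : V) : ℝ :=
  (Real.exp (-(τ (P.A p))) * a τ (P.A p)) /
      (((m.G p) 0 1 * (Real.exp (-(τ (P.A p))) * a τ (P.A p)) + (m.G p) 0 0) *
        (-((m.G p) 1 1) * (Real.exp (-(τ (P.A p))) * a τ (P.A p)) - (m.G p) 1 0))

omit [Fintype V] in
theorem el_den (τ a : V → ℝ) (h : ∀ p, 0 < a p) (p : V) :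
    0 < (((m.G p) 0 1 * (Real.exp (-(τ (P.A p))) * a (P.A p)) + (m.G p) 0 0) *
        (-((m.G p) 1 1) * (Real.exp (-(τ (P.A p))) * a (P.A p)) - (m.G p) 1 0)) := by
  obtain ⟨h1, h2, h3, h4⟩ := m.beta_left p
  have h3' := neg_pos.2 h3
  have h4' := neg_pos.2 h4
  have hw : 0 < Real.exp (-(τ (P.A p))) * a (P.A p) := mul_pos (Real.exp_pos _) (h _)
  unfold HypMetric.G
  rw [sub_eq_add_neg]
  positivity

omit [Fintype V] in
include hF in
theorem el_pos (τ : Inv P) (p : V) : 0 < el m a (τ : V → ℝ) p :=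
  div_pos (mul_pos (Real.exp_pos _) ((hF τ).isA.1 _)) (el_den m _ _ (hF τ).isA.1 p)

include ha hF in
theorem cd_el (p : V) : ContDiff ℝ 2 (fun τ : Inv P => el m a (τ : V → ℝ) p) := by
  have hw : ContDiff ℝ 2 (fun τ : Inv P =>
      Real.exp (-((τ : V → ℝ) (P.A p))) * a (τ : V → ℝ) (P.A p)) :=
    (Real.contDiff_exp.comp (cd_tau (P.A p)).neg).mul (cd_a a ha (P.A p))
  refine hw.div (((contDiff_const.mul hw).add contDiff_const).mul
    ((contDiff_const.mul hw).sub contDiff_const)) fun τ => ?_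
  exact (el_den m _ _ (hF τ).isA.1 p).ne'

omit [Fintype V] in
include hA hF in
theorem mu_eq (τ : Inv P) (p : V) :
    (F τ).mu p = (F τ).DD p / (el m a (τ : V → ℝ) p * (F τ).DD (P.A p)) := by
  have h1 : (F τ).DD p / ((F τ).mu p * (F τ).DD (P.A p)) = el m a (τ : V → ℝ) p := (hF τ).el_eq p
  have h2 := DD_pos hA (F τ) (P.A p)
  have h3 := mu_pos hA (F τ) p
  have h4 := el_pos m a F hF τ p
  rw [← h1] at h4 ⊢
  have h5 := DD_pos hA (F τ) p
  field_simp

include hA ha hF in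
theorem cd_mu (p : V) : ContDiff ℝ 2 (fun τ : Inv P => (F τ).mu p) := by
  rw [show (fun τ : Inv P => (F τ).mu p) = fun τ : Inv P =>
    (F τ).DD p / (el m a (τ : V → ℝ) p * (F τ).DD (P.A p)) from
      funext fun τ => mu_eq hA m a F hF τ p]
  exact (cd_DD hA m a F ha hF p).div ((cd_el m a F ha hF p).mul (cd_DD hA m a F ha hF (P.A p)))
    fun τ => (mul_pos (el_pos m a F hF τ p) (DD_pos hA (F τ) (P.A p))).ne'

include hA hB in
theorem muV_gt (m' : HypMetric P) {p : V} (h : P.Diag p) : 1 < m'.muV p :=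
  (hB m' (hA m')).muZ_gt (Sum.inr ⟨p, h⟩) trivial

include hA hB in
theorem muV_den (m' : HypMetric P) {p : V} (h : P.Diag p) :
    m'.mu (P.tau p) - 1 - m'.Lam (P.A p) ≠ 0 := by
  intro h0
  have h1 := muV_gt hA hB m' h
  unfold HypMetric.muV at h1
  rw [h0, div_zero] at h1
  linarith

include hA hB ha hF in
theorem cd_muV {p : V} (h : P.Diag p) : ContDiff ℝ 2 (fun τ : Inv P => (F τ).muV p) :=
  ((cd_mu hA m a F ha hF (P.tau p)).sub contDiff_const).div
    (((cd_mu hA m a F ha hF (P.tau p)).sub contDiff_const).sub (cd_Lam hA m a F ha hF (P.A p)))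
    fun τ => muV_den hA hB (F τ) h

include hA hB ha hF in
theorem cd_muZ (z : P.Z) : ContDiff ℝ 2 (fun τ : Inv P => (F τ).muZ z) := by
  rcases z with p | ⟨p, h⟩
  · change ContDiff ℝ 2 (fun τ : Inv P =>
      if P.Diag p then (F τ).mu p / (F τ).muV p else (F τ).mu p)
    by_cases h : P.Diag p
    · simp only [h, if_true]
      exact (cd_mu hA m a F ha hF p).div (cd_muV hA hB m a F ha hF h)
        fun τ => (lt_trans one_pos (muV_gt hA hB (F τ) h)).ne'
    · simp only [h, if_false]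
      exact cd_mu hA m a F ha hF p
  · exact cd_muV hA hB m a F ha hF h

include hA hB in
theorem muZ_pos (m' : HypMetric P) (z : P.Z) : 0 < m'.muZ z := by
  by_cases h : Zh z
  · linarith [(hB m' (hA m')).muZ_gt z h]
  · rw [(hB m' (hA m')).muZ_quad z h]; norm_num

include hA hB ha hF in
theorem cd_LamZ (z : P.Z) : ContDiff ℝ 2 (fun τ : Inv P => (F τ).LamZ z) := by
  rcases z with p | p
  · exact cd_Lam hA m a F ha hF p
  · unfold HypMetric.LamZ
    exact (contDiff_const.sub (contDiff_const.div (cd_muZ hA hB m a F ha hF _)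
      fun τ => (muZ_pos hA hB (F τ) _).ne')).mul
      ((cd_muZ hA hB m a F ha hF _).sub contDiff_const)

include hA hB ha hF in
theorem cd_U (z : P.Z) : ContDiff ℝ 2 (fun τ : Inv P => (F τ).U z) := by
  rcases z with p | p
  · unfold HypMetric.U
    refine ((((cd_muZ hA hB m a F ha hF _).sub contDiff_const)).log fun τ => ?_).neg
    have := (hB (F τ) (hA _)).muZ_gt (Sum.inl (P.top p)) (P.not_quad_top p)
    exact (sub_pos.2 this).ne'
  · unfold HypMetric.U
    refine ((((cd_muZ hA hB m a F ha hF _).sub contDiff_const)).log fun τ => ?_).neg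
    have := (hB (F τ) (hA _)).muZ_gt (Sum.inr p) trivial
    exact (sub_pos.2 this).ne'

include hA hB ha hF in
theorem cd_lin : ContDiff ℝ 2 (fun τ : Inv P => (F τ).lin) := by
  refine ContDiff.prodMk (contDiff_pi.2 fun z => ?_) (contDiff_pi.2 fun p => ?_)
  · exact (((cd_LamZ hA hB m a F ha hF z).log
      fun τ => ((hB (F τ) (hA _)).LamZ_pos z).ne').add (cd_U hA hB m a F ha hF z)).add
      (cd_U hA hB m a F ha hF _)
  · exact (((cd_The hA m a F ha hF p).log
      fun τ => (mul_pos (RR_pos hA (F τ) p) (SS_pos hA (F τ) _)).ne').add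
      (cd_U hA hB m a F ha hF _)).add (cd_U hA hB m a F ha hF _)

include hF in
theorem bounds : ∃ K : ℝ, 0 < K ∧ ∀ (τ : Inv P) (p : V),
    Real.exp ((τ : V → ℝ) p) ≤ K * (F τ).EE p ∧ (F τ).TT p ≤ K * Real.exp ((τ : V → ℝ) p) := by
  obtain ⟨K, hK, hb⟩ := leaf_bound m
  let Y : ℝ := 1 + ∑ p, Real.exp (m.y p)
  have hY1 : 1 ≤ Y := by
    have : 0 ≤ ∑ p, Real.exp (m.y p) := Finset.sum_nonneg fun p _ => (Real.exp_pos _).le
    simp only [Y]; linarith
  have hY : ∀ p, Real.exp (m.y p) ≤ Y := by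
    intro p
    have : Real.exp (m.y p) ≤ ∑ p, Real.exp (m.y p) :=
      Finset.single_le_sum (fun q _ => (Real.exp_pos (m.y q)).le) (Finset.mem_univ p)
    simp only [Y]; linarith
  refine ⟨K * K * Y, by positivity, fun τ p => ?_⟩
  have hpos := (hF τ).isA.1
  have hK0 : 0 < K := by linarith
  constructor
  · rw [(hF τ).E_eq p, Real.exp_sub]
    have e1 : K * K * Y * (Real.exp ((τ : V → ℝ) p) / Real.exp (m.y (P.rho p)) /
        (a (τ : V → ℝ) p * a (τ : V → ℝ) (P.kap p))) =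
        Real.exp ((τ : V → ℝ) p) * ((K / a (τ : V → ℝ) p) * (K / a (τ : V → ℝ) (P.kap p)) *
        (Y / Real.exp (m.y (P.rho p)))) := by
      have := (hpos p).ne'
      have := (hpos (P.kap p)).ne'
      field_simp
    rw [e1]
    have e2 : 1 ≤ K / a (τ : V → ℝ) p := by
      rw [one_le_div (hpos p)]; exact (hb _ _ (hF τ).isA p).1
    have e3 : 1 ≤ K / a (τ : V → ℝ) (P.kap p) := by
      rw [one_le_div (hpos _)]; exact (hb _ _ (hF τ).isA _).1
    have e4 : 1 ≤ Y / Real.exp (m.y (P.rho p)) := by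
      rw [one_le_div (Real.exp_pos _)]; exact hY _
    have e5 : 1 ≤ (K / a (τ : V → ℝ) p) * (K / a (τ : V → ℝ) (P.kap p)) *
        (Y / Real.exp (m.y (P.rho p))) := by
      have h1 := one_le_mul_of_one_le_of_one_le e2 e3
      exact one_le_mul_of_one_le_of_one_le h1 e4
    exact le_mul_of_one_le_right (Real.exp_pos _).le e5
  · rw [(hF τ).T_eq p]
    have e1 : Real.exp ((τ : V → ℝ) p) / (a (τ : V → ℝ) p * a (τ : V → ℝ) (P.rho p)) =
        ((a (τ : V → ℝ) p)⁻¹ * (a (τ : V → ℝ) (P.rho p))⁻¹) * Real.exp ((τ : V → ℝ) p) := by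
      have := (hpos p).ne'
      have := (hpos (P.rho p)).ne'
      field_simp
    rw [e1]
    refine mul_le_mul_of_nonneg_right ?_ (Real.exp_pos _).le
    have e2 := (hb _ _ (hF τ).isA p).2
    have e3 := (hb _ _ (hF τ).isA (P.rho p)).2
    have e4 : (a (τ : V → ℝ) p)⁻¹ * (a (τ : V → ℝ) (P.rho p))⁻¹ ≤ K * K :=
      mul_le_mul e2 e3 (inv_pos.2 (hpos _)).le hK0.le
    have e5 : K * K ≤ K * K * Y := le_mul_of_one_le_right (by positivity) hY1
    linarith

end smooth

theorem smooth (hA : S_GA P) (hB : S_GB P) : S_SMOOTH P := by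
  intro m a F ha hF
  exact ⟨cd_lin hA hB m a F ha hF, bounds m a F hF,
    fun τ c => third m τ (a τ) c (F τ) (hF τ) c.2⟩

end Run7.h713.MC.SMOOTH
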