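import Pool.Agent.Run7.h568.MC.Iface

/-!
# Piece CAL of project MC (helper568, MP_a29257_gt)
-/

namespace Run7.h713.MC.CAL

open Filter Topology

variable {E W : Type*} [NormedAddCommGroup E] [NormedSpace ℝ E]
  [FiniteDimensional ℝ E] [NormedAddCommGroup W] [NormedSpace ℝ W]

/-- potential of the form `τ ↦ Om (Dz τ ·) (z τ)` -/
theorem potential (Om : W →L[ℝ] W →L[ℝ] ℝ) (z : E → W) (hz : ContDiff ℝ 2 z)
    (hiso : ∀ τ c d, Om (fderiv ℝ z τ c) (fderiv ℝ z τ d) = 0) :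
    ∃ S : E → ℝ, ∀ τ, ∃ L : E →L[ℝ] ℝ, HasFDerivAt S L τ ∧
      ∀ c, L c = Om (fderiv ℝ z τ c) (z τ) := by
  have : CompleteSpace E := FiniteDimensional.complete ℝ E
  -- the form
  let ω : E → E →L[ℝ] ℝ := fun τ => (Om.flip (z τ)).comp (fderiv ℝ z τ)
  have hz1 : Differentiable ℝ z := hz.differentiable (by norm_num)
  have hz2 : Differentiable ℝ (fderiv ℝ z) := by
    have h := (contDiff_succ_iff_fderiv (𝕜 := ℝ) (n := 1) (f := z)).1
      (by rw [one_add_one_eq_two]; exact hz)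
    exact h.2.2.differentiable (by norm_num)
  have hω : ∀ τ, HasFDerivAt ω (((ContinuousLinearMap.compL ℝ E W ℝ).flip (fderiv ℝ z τ)).comp
      ((Om.flip).comp (fderiv ℝ z τ)) +
      ((ContinuousLinearMap.compL ℝ E W ℝ) (Om.flip (z τ))).comp (fderiv ℝ (fderiv ℝ z) τ)) τ := by
    intro τ
    have h1 : HasFDerivAt (fun τ => Om.flip (z τ)) ((Om.flip).comp (fderiv ℝ z τ)) τ :=
      (Om.flip).hasFDerivAt.comp τ (hz1 τ).hasFDerivAt
    have h2 : HasFDerivAt (fderiv ℝ z) (fderiv ℝ (fderiv ℝ z) τ) τ := (hz2 τ).hasFDerivAt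
    have h3 := h1.clm_comp h2
    refine h3.congr_fderiv ?_
    rw [add_comm]
  have hsym : ∀ τ, ∀ x y, fderiv ℝ ω τ x y = fderiv ℝ ω τ y x := by
    intro τ x y
    rw [(hω τ).fderiv]
    have h2 : fderiv ℝ (fderiv ℝ z) τ x y = fderiv ℝ (fderiv ℝ z) τ y x := by
      have h := (hz.contDiffAt (x := τ)).isSymmSndFDerivAt (by simp)
      exact h x y
    simp only [_root_.add_apply, ContinuousLinearMap.comp_apply,
      ContinuousLinearMap.flip_apply, ContinuousLinearMap.compL_apply, hiso, h2]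
  obtain ⟨S, hS⟩ := (convex_univ (𝕜 := ℝ) (E := E)).exists_forall_hasFDerivAt_of_fderiv_symmetric
    (s := Set.univ) isOpen_univ (ω := ω) (fun τ _ => (hω τ).differentiableAt.differentiableWithinAt)
    (fun τ _ => hsym τ)
  refine ⟨S, fun τ => ⟨ω τ, hS τ (Set.mem_univ _), fun c => rfl⟩⟩

variable [FiniteDimensional ℝ W]

/-- a curve in a submodule has its velocity in the submodule -/
theorem deriv_mem (W0 : Submodule ℝ W) {f : ℝ → W} {f' : W} {t : ℝ} (hf : HasDerivAt f f' t)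
    (h : ∀ s, f s ∈ W0) : f' ∈ W0 := by
  have hc : IsClosed (W0 : Set W) := W0.closed_of_finiteDimensional
  have h1 := hasDerivAt_iff_tendsto_slope.1 hf
  refine hc.mem_of_tendsto h1 (Filter.Eventually.of_forall fun s => ?_)
  rw [slope_def_module]
  exact W0.smul_mem _ (W0.sub_mem (h s) (h t))

/-- the bracket -/
noncomputable def Br (Om : W →L[ℝ] W →L[ℝ] ℝ) (z z' : E → W) (S S' : E → ℝ) (b : E) (σ : ℝ → E) (t : ℝ) : ℝ :=
  Om (z (t • b)) (z' (σ t)) + S' (σ t) - S (t • b) -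
    Om (z' (σ t) - z (t • b)) (z' 0 - z 0)

theorem half (Om : W →L[ℝ] W →L[ℝ] ℝ) (W0 : Submodule ℝ W)
    (Q : W →L[ℝ] (E →L[ℝ] ℝ)) (z z' : E → W) (b : E) (h h' : ℝ)
    (halt : ∀ u, Om u u = 0)
    (hker : ∀ u ∈ W0, ∀ v ∈ W0, Q u = 0 → Q v = 0 → Om u v = 0)
    (hz : ContDiff ℝ 2 z) (hz' : ContDiff ℝ 2 z') (hzW : ∀ τ, z τ ∈ W0) (hzW' : ∀ τ, z' τ ∈ W0)
    (S S' : E → ℝ)
    (hS : ∀ τ, ∃ L : E →L[ℝ] ℝ, HasFDerivAt S L τ ∧ ∀ c, L c = Om (fderiv ℝ z τ c) (z τ))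
    (hS' : ∀ τ, ∃ L : E →L[ℝ] ℝ, HasFDerivAt S' L τ ∧ ∀ c, L c = Om (fderiv ℝ z' τ c) (z' τ))
    (hle : ∀ τ σ, Om (fderiv ℝ z τ b) (z' σ - z τ) ≤ h' - h)
    (σ : ℝ → E) (hσ : ∀ t ∈ Set.Icc (0 : ℝ) 1, DifferentiableAt ℝ σ t) (h0 : σ 0 = 0)
    (hQ : ∀ t ∈ Set.Icc (0 : ℝ) 1, Q (z' (σ t)) = Q (z (t • b)) + Q (z' 0 - z 0)) :
    Br Om z z' S S' b σ 1 - Br Om z z' S S' b σ 0 ≤ 2 * (h' - h) ∧
    (Om (fderiv ℝ z 0 b) (z' 0 - z 0) < h' - h →
      Br Om z z' S S' b σ 1 - Br Om z z' S S' b σ 0 < 2 * (h' - h)) := by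
  have hz1 : Differentiable ℝ z := hz.differentiable (by norm_num)
  have hz1' : Differentiable ℝ z' := hz'.differentiable (by norm_num)
  have hanti : ∀ u v, Om u v = - Om v u := by
    intro u v
    have h1 := halt (u + v)
    simp only [map_add, _root_.add_apply, halt] at h1
    linarith
  -- derivatives
  have hlin : ∀ t : ℝ, HasDerivAt (fun t : ℝ => t • b) b t := by
    intro t
    simpa using (hasDerivAt_id t).smul_const b
  have dz : ∀ t : ℝ, HasDerivAt (fun t : ℝ => z (t • b)) (fderiv ℝ z (t • b) b) t := fun t =>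
    (hz1 (t • b)).hasFDerivAt.comp_hasDerivAt t (hlin t)
  have dz' : ∀ t ∈ Set.Icc (0 : ℝ) 1, HasDerivAt (fun t : ℝ => z' (σ t))
      (fderiv ℝ z' (σ t) (deriv σ t)) t := fun t ht =>
    (hz1' (σ t)).hasFDerivAt.comp_hasDerivAt t (hσ t ht).hasDerivAt
  have dS : ∀ t : ℝ, HasDerivAt (fun t : ℝ => S (t • b))
      (Om (fderiv ℝ z (t • b) b) (z (t • b))) t := by
    intro t
    obtain ⟨L, hL, hLc⟩ := hS (t • b)
    rw [← hLc]
    exact hL.comp_hasDerivAt t (hlin t)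
  have dS' : ∀ t ∈ Set.Icc (0 : ℝ) 1, HasDerivAt (fun t : ℝ => S' (σ t))
      (Om (fderiv ℝ z' (σ t) (deriv σ t)) (z' (σ t))) t := by
    intro t ht
    obtain ⟨L, hL, hLc⟩ := hS' (σ t)
    rw [← hLc]
    exact hL.comp_hasDerivAt t (hσ t ht).hasDerivAt
  have hclosed : IsClosed (W0 : Set W) := W0.closed_of_finiteDimensional
  -- derivatives in `W0`, on the closed interval
  have key : ∀ t ∈ Set.Icc (0 : ℝ) 1,
      (fderiv ℝ z' (σ t) (deriv σ t) - fderiv ℝ z (t • b) b) ∈ W0 ∧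
      Q (fderiv ℝ z' (σ t) (deriv σ t) - fderiv ℝ z (t • b) b) = 0 := by
    intro t ht
    have hd : HasDerivWithinAt (fun t : ℝ => z' (σ t) - z (t • b))
      (fderiv ℝ z' (σ t) (deriv σ t) - fderiv ℝ z (t • b) b) (Set.Icc 0 1) t :=
      ((dz' t ht).sub (dz t)).hasDerivWithinAt
    have hu : UniqueDiffWithinAt ℝ (Set.Icc (0 : ℝ) 1) t := uniqueDiffOn_Icc (by norm_num) t ht
    constructor
    · exact W0.sub_mem (deriv_mem W0 (dz' t ht) fun s => hzW' _) (deriv_mem W0 (dz t) fun s => hzW _)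
    · have h2 : HasDerivWithinAt (fun t : ℝ => Q (z' (σ t) - z (t • b)))
        (Q (fderiv ℝ z' (σ t) (deriv σ t) - fderiv ℝ z (t • b) b)) (Set.Icc 0 1) t :=
        Q.hasFDerivAt.comp_hasDerivWithinAt t hd
      have h3 : HasDerivWithinAt (fun t : ℝ => Q (z' (σ t) - z (t • b)))
          (0 : E →L[ℝ] ℝ) (Set.Icc 0 1) t := by
        have h4 := hasDerivWithinAt_const (𝕜 := ℝ) t (Set.Icc (0 : ℝ) 1) (Q (z' 0 - z 0))
        refine h4.congr (fun s hs => ?_) ?_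
        · rw [map_sub, hQ s hs]; simp
        · rw [map_sub, hQ t ht]; simp
      exact (hu.eq_deriv _ h2 h3)
  -- the derivative of the bracket
  have dB : ∀ t ∈ Set.Icc (0 : ℝ) 1, HasDerivAt (Br Om z z' S S' b σ)
      (2 * Om (fderiv ℝ z (t • b) b) (z' (σ t) - z (t • b))) t := by
    intro t ht
    have h1 : HasDerivAt (fun t : ℝ => Om (z (t • b)) (z' (σ t)))
        (Om (fderiv ℝ z (t • b) b) (z' (σ t)) +
          Om (z (t • b)) (fderiv ℝ z' (σ t) (deriv σ t))) t := by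
      have h2 : HasDerivAt (fun t : ℝ => Om (z (t • b))) (Om (fderiv ℝ z (t • b) b)) t :=
        Om.hasFDerivAt.comp_hasDerivAt t (dz t)
      exact h2.clm_apply (dz' t ht)
    have h3 : HasDerivAt (fun t : ℝ => Om (z' (σ t) - z (t • b)) (z' 0 - z 0))
        (Om (fderiv ℝ z' (σ t) (deriv σ t) - fderiv ℝ z (t • b) b) (z' 0 - z 0)) t := by
      have h4 : HasDerivAt (fun t : ℝ => (Om.flip (z' 0 - z 0)) (z' (σ t) - z (t • b)))
          ((Om.flip (z' 0 - z 0)) (fderiv ℝ z' (σ t) (deriv σ t) - fderiv ℝ z (t • b) b)) t :=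
        (Om.flip (z' 0 - z 0)).hasFDerivAt.comp_hasDerivAt t ((dz' t ht).sub (dz t))
      exact h4
    have h5 := ((h1.add (dS' t ht)).sub (dS t)).sub h3
    obtain ⟨k1, k2⟩ := key t ht
    have h6 : Om (fderiv ℝ z' (σ t) (deriv σ t) - fderiv ℝ z (t • b) b)
        ((z' (σ t) - z (t • b)) - (z' 0 - z 0)) = 0 := by
      apply hker _ k1 _ _ k2
      · rw [map_sub, map_sub Q (z' (σ t)), hQ t ht]; abel
      · exact W0.sub_mem (W0.sub_mem (hzW' _) (hzW _)) (W0.sub_mem (hzW' _) (hzW _))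
    refine h5.congr_deriv ?_
    rw [map_sub (Om (fderiv ℝ z' (σ t) (deriv σ t) - fderiv ℝ z (t • b) b)) _ (z' 0 - z 0)] at h6
    have h7 : Om (fderiv ℝ z' (σ t) (deriv σ t) - fderiv ℝ z (t • b) b) (z' 0 - z 0) =
      Om (fderiv ℝ z' (σ t) (deriv σ t) - fderiv ℝ z (t • b) b) (z' (σ t) - z (t • b)) := by
      linarith
    rw [h7]
    simp only [map_sub, _root_.sub_apply]
    rw [hanti (z (t • b)) (fderiv ℝ z' (σ t) (deriv σ t))]
    ring
  -- monotone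
  have dF : ∀ t ∈ Set.Icc (0 : ℝ) 1,
      HasDerivAt (fun t => 2 * (h' - h) * t - Br Om z z' S S' b σ t)
      (2 * (h' - h) - 2 * Om (fderiv ℝ z (t • b) b) (z' (σ t) - z (t • b))) t := by
    intro t ht
    have h1 : HasDerivAt (fun t : ℝ => 2 * (h' - h) * t) (2 * (h' - h)) t := by
      simpa using (hasDerivAt_id t).const_mul (2 * (h' - h))
    exact h1.sub (dB t ht)
  have hmono : MonotoneOn (fun t => 2 * (h' - h) * t - Br Om z z' S S' b σ t)
      (Set.Icc (0 : ℝ) 1) := by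
    refine monotoneOn_of_deriv_nonneg (convex_Icc 0 1)
      (fun t ht => (dF t ht).continuousAt.continuousWithinAt) (fun t ht => ?_) (fun t ht => ?_)
    · rw [interior_Icc] at ht
      exact (dF t (Set.Ioo_subset_Icc_self ht)).differentiableAt.differentiableWithinAt
    · rw [interior_Icc] at ht
      rw [(dF t (Set.Ioo_subset_Icc_self ht)).deriv]
      have := hle (t • b) (σ t)
      linarith
  have m0 : (0 : ℝ) ∈ Set.Icc (0 : ℝ) 1 := by simp
  have m1 : (1 : ℝ) ∈ Set.Icc (0 : ℝ) 1 := by simp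
  have h01 := hmono m0 m1 (by norm_num)
  simp only [mul_zero, mul_one, zero_sub] at h01
  refine ⟨by linarith, fun hlt => ?_⟩
  rcases lt_or_eq_of_le h01 with h1 | h1
  · linarith
  · exfalso
    have hconst : ∀ t ∈ Set.Icc (0 : ℝ) 1,
        (fun t => 2 * (h' - h) * t - Br Om z z' S S' b σ t) t = - Br Om z z' S S' b σ 0 := by
      intro t ht
      have ha := hmono m0 ht ht.1
      have hb := hmono ht m1 ht.2
      simp only [mul_zero, mul_one, zero_sub] at ha hb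
      simp only
      linarith
    have hu : UniqueDiffWithinAt ℝ (Set.Icc (0 : ℝ) 1) 0 := uniqueDiffOn_Icc (by norm_num) 0 m0
    have ha := (dF 0 m0).hasDerivWithinAt (s := Set.Icc (0 : ℝ) 1)
    have hb : HasDerivWithinAt (fun t => 2 * (h' - h) * t - Br Om z z' S S' b σ t) 0
        (Set.Icc (0 : ℝ) 1) 0 :=
      (hasDerivWithinAt_const (𝕜 := ℝ) 0 (Set.Icc (0 : ℝ) 1) (- Br Om z z' S S' b σ 0)).congr
        hconst (hconst 0 m0)
    have hc := hu.eq_deriv _ ha hb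
    rw [zero_smul, h0] at hc
    linarith

theorem cal.{u} : Run7.h568.MC.S_CAL.{u} := by
  intro E W _ _ _ _ _ _ Om W0 Q z z' b h h' halt hker hz hz' hzW hzW' hiso hiso' hle heq hle'
    hσ hσ' hb
  obtain ⟨S, hS⟩ := potential Om z hz hiso
  obtain ⟨S', hS'⟩ := potential Om z' hz' hiso'
  obtain ⟨σ, hσd, hσ0, hσ1, hσQ⟩ := hσ
  obtain ⟨ρ, hρd, hρ0, hρ1, hρQ⟩ := hσ'
  by_contra hne
  have hlt : Om (fderiv ℝ z 0 b) (z' 0 - z 0) < h' - h :=
    lt_of_le_of_ne (hle 0 0) fun h1 => hne (heq 0 0 h1)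
  have h1 := (half Om W0 Q z z' b h h' halt hker hz hz' hzW hzW' S S' hS hS' hle σ hσd hσ0 hσQ).2
    hlt
  have h2 := (half Om W0 Q z' z b h' h halt hker hz' hz hzW' hzW S' S hS' hS hle' ρ hρd hρ0 hρQ).1
  have hanti : ∀ u v, Om u v = - Om v u := by
    intro u v
    have h1 := halt (u + v)
    simp only [map_add, _root_.add_apply, halt] at h1
    linarith
  simp only [Br, one_smul, zero_smul, hσ0, hσ1, hρ0, hρ1] at h1 h2
  rw [hb] at h1
  have hb' : z b - z' b = z 0 - z' 0 := by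
    rw [← neg_sub (z' b), ← neg_sub (z' 0), hb]
  rw [hb', hanti (z' b) (z b), hanti (z' 0) (z 0)] at h2
  rw [halt] at h1 h2
  linarith

end Run7.h713.MC.CAL
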