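import Pool.Agent.Run7.h568.MC.Iface

/-!
# Piece INV of project MC (helper568, MP_a29257_gt)
-/

namespace Run7.h713.MC.INV

open Filter Topology

theorem inv.{u} : Run7.h568.MC.S_INV.{u} := by
  intro E F _ _ _ _ _ _ f U hdim hf hinj hfi hU hconv hfU hprop
  have : CompleteSpace E := FiniteDimensional.complete ℝ E
  have : CompleteSpace F := FiniteDimensional.complete ℝ F
  have : ProperSpace E := FiniteDimensional.proper ℝ E
  have hcont : Continuous f := hf.continuous
  -- the derivative as an equivalence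
  have heq : ∀ x, ∃ e : E ≃L[ℝ] F, (e : E →L[ℝ] F) = fderiv ℝ f x := by
    intro x
    let L : E ≃ₗ[ℝ] F :=
      LinearEquiv.ofInjectiveOfFinrankEq ((fderiv ℝ f x : E →L[ℝ] F) : E →ₗ[ℝ] F) (hinj x) hdim
    refine ⟨L.toContinuousLinearEquiv, ?_⟩
    ext v
    rfl
  have hstrict : ∀ x, HasStrictFDerivAt f (fderiv ℝ f x) x := fun x =>
    (hf.contDiffAt.hasStrictFDerivAt (by norm_num))
  -- the range is open
  have hopen : IsOpen (Set.range f) := by
    rw [isOpen_iff_mem_nhds]
    rintro _ ⟨x, rfl⟩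
    obtain ⟨e, he⟩ := heq x
    have h1 : HasStrictFDerivAt f (e : E →L[ℝ] F) x := by rw [he]; exact hstrict x
    have h2 := h1.map_nhds_eq_of_equiv
    rw [← h2]
    exact Filter.mem_map.2 (Filter.univ_mem' fun y => ⟨y, rfl⟩)
  -- the range is closed in `U`
  have hclosed : ∀ y ∈ U, y ∈ closure (Set.range f) → y ∈ Set.range f := by
    intro y hy hcl
    obtain ⟨N, hN, C, hC⟩ := hprop y hy
    rw [mem_closure_iff_seq_limit] at hcl
    obtain ⟨s, hs, hlim⟩ := hcl
    choose x hx using hs
    have hev : ∀ᶠ n in atTop, s n ∈ N := hlim.eventually hN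
    have hev2 : ∀ᶠ n in atTop, x n ∈ Metric.closedBall (0 : E) C := by
      filter_upwards [hev] with n hn
      rw [mem_closedBall_zero_iff]
      exact hC (x n) (by rw [hx]; exact hn)
    obtain ⟨a, -, φ, hφ, ha⟩ :=
      (isCompact_closedBall (0 : E) C).tendsto_subseq' hev2.frequently
    refine ⟨a, ?_⟩
    have h3 : Tendsto (fun n => f (x (φ n))) atTop (𝓝 (f a)) :=
      (hcont.tendsto a).comp ha
    have h4 : Tendsto (fun n => f (x (φ n))) atTop (𝓝 y) := by
      have : (fun n => f (x (φ n))) = fun n => s (φ n) := by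
        funext n; exact hx (φ n)
      rw [this]
      exact hlim.comp hφ.tendsto_atTop
    exact tendsto_nhds_unique h3 h4
  have hsub : U ⊆ Set.range f := by
    have hpre : IsPreconnected U := hconv.isPreconnected
    by_contra hne
    rw [Set.not_subset] at hne
    obtain ⟨y, hyU, hy⟩ := hne
    have hcomp : U ⊆ Set.range f ∪ (closure (Set.range f))ᶜ := by
      intro w hw
      by_cases h : w ∈ closure (Set.range f)
      · exact Or.inl (hclosed w hw h)
      · exact Or.inr h
    have h5 := hpre (Set.range f) ((closure (Set.range f))ᶜ) hopen isClosed_closure.isOpen_compl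
      hcomp ⟨f 0, hfU 0, ⟨0, rfl⟩⟩ ⟨y, hyU, fun h => hy (hclosed y hyU h)⟩
    obtain ⟨w, -, hw1, hw2⟩ := h5
    exact hw2 (subset_closure hw1)
  refine ⟨Function.invFun f, fun y hy => ?_⟩
  obtain ⟨x, hx⟩ := hsub hy
  subst hx
  have hl := Function.leftInverse_invFun hfi
  refine ⟨by rw [hl x], ?_⟩
  obtain ⟨e, he⟩ := heq x
  have h1 : HasStrictFDerivAt f (e : E →L[ℝ] F) x := by rw [he]; exact hstrict x
  have h2 := h1.to_local_left_inverse (g := Function.invFun f) (Filter.Eventually.of_forall hl)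
  exact h2.hasFDerivAt.differentiableAt

end Run7.h713.MC.INV
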